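import Mathlib

/-!
# The Jordan product of the multipliers of a JB*-algebra is jointly J-strictly continuous on
# bounded sets

`A` is a JB*-algebra, its bidual carries the (first) Arens product, which is the Jordan product
of the JBW*-algebra `A**` (see `eq_arens`), `M(A)` is the set of multipliers.

The key is the linearised Jordan identity
`a² ∘ (x ∘ y) = (a² ∘ x) ∘ y + 2 a ∘ (x ∘ (a ∘ y)) - 2 (a ∘ x) ∘ (a ∘ y)`
for `a` in `A` and `x`, `y` in the bidual, together with the density of the span of the squares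
of `A`, which is proved from the axioms with an exponential curve.
-/

namespace Pool.Agent.Lib.MP_2cba5e_an

open Filter Topology

/-! ### JB*-algebras as a class -/

/-- A JB*-algebra: a complex Banach space `A` with a bilinear commutative product `a * b`
satisfying the Jordan identity and `‖a * b‖ ≤ ‖a‖ ‖b‖` (a Jordan Banach algebra), with a
conjugate-linear multiplicative involution, such that `‖U_a (a*)‖ = ‖a‖ ^ 3` for all `a`, where
`U_a x = 2 (a * x) * a - (a * a) * x`. -/
class JBStarAlgebra (A : Type*) extends NormedAddCommGroup A, NormedSpace ℂ A,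
    CompleteSpace A, Mul A, Star A where
  jmul_comm : ∀ a b : A, a * b = b * a
  jadd_mul : ∀ a b c : A, (a + b) * c = a * c + b * c
  jsmul_mul : ∀ (z : ℂ) (a b : A), (z • a) * b = z • (a * b)
  jordan_identity : ∀ a b : A, (a * b) * (a * a) = a * (b * (a * a))
  jnorm_mul_le : ∀ a b : A, ‖a * b‖ ≤ ‖a‖ * ‖b‖
  jstar_star : ∀ a : A, star (star a) = a
  jstar_add : ∀ a b : A, star (a + b) = star a + star b
  jstar_smul : ∀ (z : ℂ) (a : A), star (z • a) = (starRingEnd ℂ z) • star a
  jstar_mul : ∀ a b : A, star (a * b) = star a * star b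
  jnorm_U : ∀ a : A, ‖(2 : ℂ) • ((a * star a) * a) - (a * a) * star a‖ = ‖a‖ ^ 3

variable {A : Type*} [JBStarAlgebra A]

open JBStarAlgebra

theorem jmul_add (a b c : A) : a * (b + c) = a * b + a * c := by
  rw [jmul_comm, jadd_mul, jmul_comm b, jmul_comm c]

theorem jmul_smul (z : ℂ) (a b : A) : a * (z • b) = z • (a * b) := by
  rw [jmul_comm, jsmul_mul, jmul_comm b]

theorem jzero_mul (a : A) : (0 : A) * a = 0 := by
  simpa using jsmul_mul 0 (0 : A) a

theorem jmul_zero (a : A) : a * (0 : A) = 0 := by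
  rw [jmul_comm, jzero_mul]

theorem jneg_mul (a b : A) : (-a) * b = -(a * b) := by
  simpa using jsmul_mul (-1) a b

theorem jmul_neg (a b : A) : a * (-b) = -(a * b) := by
  rw [jmul_comm, jneg_mul, jmul_comm b]

theorem jsub_mul (a b c : A) : (a - b) * c = a * c - b * c := by
  rw [sub_eq_add_neg, jadd_mul, jneg_mul, ← sub_eq_add_neg]

theorem jmul_sub (a b c : A) : a * (b - c) = a * b - a * c := by
  rw [sub_eq_add_neg, jmul_add, jmul_neg, ← sub_eq_add_neg]

/-- The product as a continuous bilinear map. -/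
noncomputable def mulL : A →L[ℂ] A →L[ℂ] A :=
  LinearMap.mkContinuous₂ (LinearMap.mk₂ ℂ (fun a b : A => a * b) jadd_mul
    (fun z a b => jsmul_mul z a b) jmul_add (fun z a b => jmul_smul z a b)) 1
    (fun a b => by simpa using jnorm_mul_le a b)

@[simp] theorem mulL_apply (a b : A) : mulL a b = a * b := rfl

/-! ### The bidual with the Arens product -/

/-- The bidual of `A`. -/
abbrev Bidual (A : Type*) [JBStarAlgebra A] : Type _ := StrongDual ℂ (StrongDual ℂ A)

/-- The canonical embedding of `A` into its bidual: `emb a φ = φ a`. -/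
noncomputable def emb : A →L[ℂ] Bidual A := NormedSpace.inclusionInDoubleDual ℂ A

@[simp] theorem emb_apply (a : A) (φ : StrongDual ℂ A) : emb a φ = φ a := rfl

/-- For a functional `φ`, the map `a ↦ φ · a`, where `(φ · a) b = φ (a * b)`. -/
noncomputable def act (φ : StrongDual ℂ A) : A →L[ℂ] StrongDual ℂ A :=
  (ContinuousLinearMap.compL ℂ A A ℂ φ).comp mulL

@[simp] theorem act_apply (φ : StrongDual ℂ A) (a b : A) : act φ a b = φ (a * b) := rfl

theorem norm_act_le (φ : StrongDual ℂ A) : ‖act φ‖ ≤ ‖φ‖ := by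
  refine ContinuousLinearMap.opNorm_le_bound _ (norm_nonneg _) fun a => ?_
  refine ContinuousLinearMap.opNorm_le_bound _ (by positivity) fun b => ?_
  calc ‖φ (a * b)‖ ≤ ‖φ‖ * ‖a * b‖ := φ.le_opNorm _
    _ ≤ ‖φ‖ * (‖a‖ * ‖b‖) := by gcongr; exact jnorm_mul_le a b
    _ = ‖φ‖ * ‖a‖ * ‖b‖ := by ring

/-- For `Y` in the bidual, the map `φ ↦ Y · φ`, where `(Y · φ) a = Y (φ · a)`. -/
noncomputable def bact (Y : Bidual A) : StrongDual ℂ A →L[ℂ] StrongDual ℂ A :=
  LinearMap.mkContinuous
    { toFun := fun φ => Y.comp (act φ)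
      map_add' := fun φ ψ => by
        ext a
        have : act (φ + ψ) a = act φ a + act ψ a := by ext b; rfl
        change Y (act (φ + ψ) a) = Y (act φ a) + Y (act ψ a)
        rw [this, map_add]
      map_smul' := fun z φ => by
        ext a
        have : act (z • φ) a = z • act φ a := by ext b; rfl
        change Y (act (z • φ) a) = z • Y (act φ a)
        rw [this, map_smul] }
    ‖Y‖
    (fun φ => (Y.opNorm_comp_le _).trans (by gcongr; exact norm_act_le φ))

@[simp] theorem bact_apply (Y : Bidual A) (φ : StrongDual ℂ A) (a : A) :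
    bact Y φ a = Y (act φ a) := rfl

theorem norm_bact_le (Y : Bidual A) : ‖bact Y‖ ≤ ‖Y‖ :=
  LinearMap.mkContinuous_norm_le _ (norm_nonneg Y) _

/-- The (first) Arens product on the bidual: `(X □ Y) φ = X (Y · φ)`, that is, `X` applied to the
functional `a ↦ Y (b ↦ φ (a * b))`. -/
noncomputable def arens (X Y : Bidual A) : Bidual A := X.comp (bact Y)

@[simp] theorem arens_apply (X Y : Bidual A) (φ : StrongDual ℂ A) :
    arens X Y φ = X (bact Y φ) := rfl

theorem norm_arens_le (X Y : Bidual A) : ‖arens X Y‖ ≤ ‖X‖ * ‖Y‖ :=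
  (X.opNorm_comp_le _).trans (by gcongr; exact norm_bact_le Y)

theorem arens_add_left (X X' Y : Bidual A) : arens (X + X') Y = arens X Y + arens X' Y := rfl

theorem arens_sub_left (X X' Y : Bidual A) : arens (X - X') Y = arens X Y - arens X' Y := rfl

theorem arens_smul_left (z : ℂ) (X Y : Bidual A) : arens (z • X) Y = z • arens X Y := rfl

theorem arens_add_right (X Y Y' : Bidual A) : arens X (Y + Y') = arens X Y + arens X Y' := by
  ext φ
  change X (bact (Y + Y') φ) = X (bact Y φ) + X (bact Y' φ)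
  rw [← map_add]; rfl

theorem arens_sub_right (X Y Y' : Bidual A) : arens X (Y - Y') = arens X Y - arens X Y' := by
  ext φ
  change X (bact (Y - Y') φ) = X (bact Y φ) - X (bact Y' φ)
  rw [← map_sub]; rfl

theorem arens_smul_right (z : ℂ) (X Y : Bidual A) : arens X (z • Y) = z • arens X Y := by
  ext φ
  change X (bact (z • Y) φ) = z • X (bact Y φ)
  rw [← map_smul]; rfl

theorem arens_emb_comm (X : Bidual A) (b : A) : arens X (emb b) = arens (emb b) X := by
  ext φ
  change X (bact (emb b) φ) = X (act φ b)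
  congr 1
  ext a
  change φ (a * b) = φ (b * a)
  rw [jmul_comm]

theorem arens_emb_emb (a b : A) : arens (emb a) (emb b) = emb (a * b) := rfl

/-- The multiplier algebra `M(A)`: all `X` in the bidual with `X □ A ⊆ A`. -/
def multipliers (A : Type*) [JBStarAlgebra A] : Set (Bidual A) :=
  {X | ∀ a : A, arens X (emb a) ∈ Set.range (emb : A → Bidual A)}

/-- J-strict convergence along a filter of a family `f` (in `M(A)`) to `x`:
`‖a ∘ (f i - x)‖ → 0` for every `a` in `A`. -/
def JStrictTendsto {ι : Type*} (f : ι → Bidual A) (l : Filter ι) (x : Bidual A) : Prop :=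
  ∀ a : A, Tendsto (fun i => ‖arens (emb a) (f i - x)‖) l (𝓝 0)

/-- The Arens product is the only product on the bidual which extends the product of `A` and is
separately weak*-continuous and linear: a map into the bidual is linear and weak*-continuous in a
variable `X` exactly when each of its values at a functional `φ` is evaluation of `X` at some
functional. -/
theorem eq_arens (P : Bidual A → Bidual A → Bidual A)
    (hext : ∀ a b : A, P (emb a) (emb b) = emb (a * b))
    (hleft : ∀ (Y : Bidual A) (φ : StrongDual ℂ A), ∃ ψ : StrongDual ℂ A, ∀ X, P X Y φ = X ψ)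
    (hright : ∀ (X : Bidual A) (φ : StrongDual ℂ A), ∃ ψ : StrongDual ℂ A, ∀ Y, P X Y φ = Y ψ) :
    P = arens := by
  funext X Y
  ext φ
  obtain ⟨ψ, hψ⟩ := hleft Y φ
  rw [hψ X]
  have h : ψ = bact Y φ := by
    ext a
    obtain ⟨χ, hχ⟩ := hright (emb a) φ
    have h1 : χ = act φ a := by
      ext b
      have h2 := hχ (emb b)
      rw [hext] at h2
      exact h2.symm
    have h3 := hψ (emb a)
    rw [hχ Y, h1] at h3
    exact h3.symm
  rw [h]
  rfl

/-! ### The linearised Jordan identity -/

/-- Linearised Jordan identity. -/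
theorem jlin (a x y : A) :
    (a * a) * (x * y) + (2 : ℂ) • ((a * x) * (a * y)) =
      x * ((a * a) * y) + (2 : ℂ) • (a * ((a * x) * y)) := by
  have h1 := jordan_identity (a + x) y
  have h2 := jordan_identity (a - x) y
  have h3 := jordan_identity x y
  have h4 := jordan_identity a y
  simp only [jmul_add, jadd_mul, jmul_sub, jsub_mul, jmul_comm x a] at h1 h2
  rw [jmul_comm (a * a) (x * y), jmul_comm (a * x) (a * y), jmul_comm (a * a) y, jmul_comm (a * x) y,
    two_smul, two_smul]
  have h5 : (2 : ℂ) • ((x * y) * (a * a) + ((a * y) * (a * x) + (a * y) * (a * x))) =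
      (2 : ℂ) • (x * (y * (a * a)) + (a * (y * (a * x)) + a * (y * (a * x)))) := by
    have h6 := congrArg₂ (fun s t => s - t) h1 h2
    have h7 := congrArg (fun t => (2 : ℂ) • t) h3
    beta_reduce at h6 h7
    rw [two_smul] at h7 ⊢
    rw [two_smul] at h7 ⊢
    have h8 := congrArg₂ (fun s t => s - t) h6 h7
    beta_reduce at h8
    abel_nf at h8 ⊢
    exact h8
  exact smul_right_injective A (two_ne_zero : (2 : ℂ) ≠ 0) h5

/-- Linearised Jordan identity, second form. -/
theorem jlin' (a x y : A) :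
    (a * a) * (x * y) + (2 : ℂ) • ((a * x) * (a * y)) =
      ((a * a) * x) * y + (2 : ℂ) • (a * (x * (a * y))) := by
  have h := jlin a y x
  rw [jmul_comm y x, jmul_comm (a * y) (a * x), jmul_comm y (a * a * x), jmul_comm (a * y) x] at h
  exact h

/-! ### Powers of an element -/

/-- `pw b n = b ^ (n + 1)` (left powers). -/
def pw (b : A) : ℕ → A
  | 0 => b
  | n + 1 => b * pw b n

theorem sq_mul_pw (b : A) (n : ℕ) : (b * b) * pw b n = pw b (n + 2) := by
  induction n with
  | zero => simp only [pw]; rw [jmul_comm (b * b) b]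
  | succ n ih =>
    have h := jordan_identity b (pw b n)
    rw [jmul_comm (pw b n) (b * b), ih, jmul_comm (b * pw b n)] at h
    simpa only [pw] using h

/-- Left multiplication operator. -/
noncomputable abbrev Lm (a : A) : A →L[ℂ] A := mulL a

theorem Lm_sq_commute (b : A) : Commute (Lm b) (Lm (b * b)) := by
  ext x
  change b * ((b * b) * x) = (b * b) * (b * x)
  have h := jordan_identity b x
  rw [jmul_comm x (b * b), jmul_comm (b * x) (b * b)] at h
  exact h.symm

theorem Lm_pw_succ (b : A) (n : ℕ) : Lm (pw b (n + 2)) =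
    Lm (b * b) * Lm (pw b n) + (2 : ℂ) • (Lm (pw b (n + 1)) * Lm b)
      - (2 : ℂ) • (Lm b * Lm (pw b n) * Lm b) := by
  ext x
  change pw b (n + 2) * x = (b * b) * (pw b n * x) + (2 : ℂ) • ((b * pw b n) * (b * x))
    - (2 : ℂ) • (b * (pw b n * (b * x)))
  have h := jlin' b (pw b n) x
  rw [sq_mul_pw] at h
  rw [eq_sub_iff_add_eq]
  exact h.symm

theorem Lm_pw_mem (b : A) (n : ℕ) :
    Lm (pw b n) ∈ Algebra.adjoin ℂ ({Lm b, Lm (b * b)} : Set (A →L[ℂ] A)) ∧
    Lm (pw b (n + 1)) ∈ Algebra.adjoin ℂ ({Lm b, Lm (b * b)} : Set (A →L[ℂ] A)) := by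
  have h1 : Lm b ∈ Algebra.adjoin ℂ ({Lm b, Lm (b * b)} : Set (A →L[ℂ] A)) :=
    Algebra.subset_adjoin (by simp)
  have h2 : Lm (b * b) ∈ Algebra.adjoin ℂ ({Lm b, Lm (b * b)} : Set (A →L[ℂ] A)) :=
    Algebra.subset_adjoin (by simp)
  induction n with
  | zero => exact ⟨h1, h2⟩
  | succ n ih =>
    refine ⟨ih.2, ?_⟩
    rw [Lm_pw_succ]
    exact Subalgebra.sub_mem _ (Subalgebra.add_mem _ (Subalgebra.mul_mem _ h2 ih.1)
      (Subalgebra.smul_mem _ (Subalgebra.mul_mem _ ih.2 h1) _))
      (Subalgebra.smul_mem _ (Subalgebra.mul_mem _ (Subalgebra.mul_mem _ h1 ih.1) h1) _)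

theorem Lm_pw_commute (b : A) (m n : ℕ) : Commute (Lm (pw b m)) (Lm (pw b n)) := by
  have hm := (Lm_pw_mem b m).1
  have hn := (Lm_pw_mem b n).1
  have hc : ∀ x ∈ ({Lm b, Lm (b * b)} : Set (A →L[ℂ] A)),
      ∀ y ∈ ({Lm b, Lm (b * b)} : Set (A →L[ℂ] A)), x * y = y * x := by
    intro x hx y hy
    simp only [Set.mem_insert_iff, Set.mem_singleton_iff] at hx hy
    rcases hx with rfl | rfl <;> rcases hy with rfl | rfl
    · rfl
    · exact Lm_sq_commute b
    · exact (Lm_sq_commute b).symm
    · rfl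
  have := Algebra.isMulCommutative_adjoin ℂ hc
  exact setLike_mul_comm hm hn

/-- The closed linear span of the powers of `b`. -/
noncomputable def Sb (b : A) : Submodule ℂ A :=
  (Submodule.span ℂ (Set.range (pw b))).topologicalClosure

theorem isClosed_Sb (b : A) : IsClosed (Sb b : Set A) := Submodule.isClosed_topologicalClosure _

theorem Sb_le {b : A} {V : Submodule ℂ A} (hV : IsClosed (V : Set A)) (h : ∀ n, pw b n ∈ V) :
    Sb b ≤ V := by
  refine Submodule.topologicalClosure_minimal _ (Submodule.span_le.2 ?_) hV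
  rintro _ ⟨n, rfl⟩
  exact h n

theorem pw_mem_Sb (b : A) (n : ℕ) : pw b n ∈ Sb b :=
  Submodule.le_topologicalClosure _ (Submodule.subset_span ⟨n, rfl⟩)

/-- The submodule of all `x` with `L_x` commuting with a given operator. -/
def commSub (T : A →L[ℂ] A) : Submodule ℂ A where
  carrier := {x | ∀ y, x * T y = T (x * y)}
  add_mem' := fun {x x'} hx hx' y => by rw [jadd_mul, jadd_mul, map_add, hx y, hx' y]
  zero_mem' := fun y => by rw [jzero_mul, jzero_mul, map_zero]
  smul_mem' := fun z x hx y => by rw [jsmul_mul, jsmul_mul, map_smul, hx y]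

theorem continuous_jmul_left (y : A) : Continuous fun x : A => x * y := by
  have : (fun x : A => x * y) = fun x : A => mulL y x := by
    ext x; simp [jmul_comm x y]
  rw [this]; exact (mulL y).continuous

theorem continuous_jmul_right (y : A) : Continuous fun x : A => y * x := (mulL y).continuous

theorem isClosed_commSub (T : A →L[ℂ] A) : IsClosed (commSub T : Set A) := by
  have : (commSub T : Set A) = ⋂ y, {x | x * T y = T (x * y)} := by
    ext x; simp [commSub]
  rw [this]
  exact isClosed_iInter fun y => isClosed_eq (continuous_jmul_left _)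
    (T.continuous.comp (continuous_jmul_left _))

theorem mul_mul_comm_of_mem {b x y : A} (hx : x ∈ Sb b) (hy : y ∈ Sb b) (z : A) :
    x * (y * z) = y * (x * z) := by
  have h1 : ∀ n, Sb b ≤ commSub (mulL (pw b n)) := fun n =>
    Sb_le (isClosed_commSub _) fun m w => by
      have := DFunLike.congr_fun (Lm_pw_commute b m n).eq w
      exact this
  have h2 : Sb b ≤ commSub (mulL x) := Sb_le (isClosed_commSub _) fun m w => by
    have := h1 m hx w
    exact this.symm
  exact (h2 hy z).symm

theorem mul_mem_Sb {b x : A} (hx : x ∈ Sb b) : b * x ∈ Sb b := by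
  have : Sb b ≤ (Sb b).comap (mulL b : A →ₗ[ℂ] A) :=
    Sb_le ((isClosed_Sb b).preimage (mulL b).continuous) fun n => by
      change b * pw b n ∈ Sb b
      exact pw_mem_Sb b (n + 1)
  exact this hx

/-! ### The involution -/

theorem norm_le_three_norm_star (a : A) : ‖a‖ ≤ 3 * ‖star a‖ := by
  have h := jnorm_U a
  have h1 : ‖(2 : ℂ) • ((a * star a) * a) - (a * a) * star a‖ ≤ 3 * ‖a‖ ^ 2 * ‖star a‖ := by
    calc ‖(2 : ℂ) • ((a * star a) * a) - (a * a) * star a‖
        ≤ ‖(2 : ℂ) • ((a * star a) * a)‖ + ‖(a * a) * star a‖ := norm_sub_le _ _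
      _ = 2 * ‖(a * star a) * a‖ + ‖(a * a) * star a‖ := by rw [norm_smul]; simp
      _ ≤ 2 * (‖a‖ * ‖star a‖ * ‖a‖) + ‖a‖ * ‖a‖ * ‖star a‖ := by
          have e1 : ‖(a * star a) * a‖ ≤ ‖a‖ * ‖star a‖ * ‖a‖ :=
            (jnorm_mul_le _ _).trans (by gcongr; exact jnorm_mul_le _ _)
          have e2 : ‖(a * a) * star a‖ ≤ ‖a‖ * ‖a‖ * ‖star a‖ :=
            (jnorm_mul_le _ _).trans (by gcongr; exact jnorm_mul_le _ _)
          linarith
      _ = 3 * ‖a‖ ^ 2 * ‖star a‖ := by ring
  rw [h] at h1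
  rcases (norm_nonneg a).eq_or_lt with h0 | h0
  · rw [← h0]; positivity
  · have : ‖a‖ ^ 2 * ‖a‖ ≤ ‖a‖ ^ 2 * (3 * ‖star a‖) := by nlinarith
    exact le_of_mul_le_mul_left this (by positivity)

theorem norm_star_le (a : A) : ‖star a‖ ≤ 3 * ‖a‖ := by
  simpa [jstar_star] using norm_le_three_norm_star (star a)

/-- The involution as a continuous conjugate-linear map. -/
noncomputable def starL : A →L⋆[ℂ] A :=
  LinearMap.mkContinuous
    { toFun := star
      map_add' := jstar_add
      map_smul' := jstar_smul } 3 norm_star_le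

@[simp] theorem starL_apply (a : A) : starL a = star a := rfl

theorem star_pw {b : A} (hb : star b = b) (n : ℕ) : star (pw b n) = pw b n := by
  induction n with
  | zero => exact hb
  | succ n ih => simp only [pw]; rw [jstar_mul, hb, ih]

theorem star_mem_Sb {b x : A} (hb : star b = b) (hx : x ∈ Sb b) : star x ∈ Sb b := by
  have : Sb b ≤ (Sb b).comap (starL (A := A)).toLinearMap :=
    Sb_le ((isClosed_Sb b).preimage (starL (A := A)).continuous) fun n => by
      change star (pw b n) ∈ Sb b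
      rw [star_pw hb]; exact pw_mem_Sb b n
  exact this hx

/-! ### The exponential curve -/

/-- The operator `(x, μ) ↦ (b * x + μ b, 0)` on `A × ℂ`. -/
noncomputable def opT (b : A) : (A × ℂ) →L[ℂ] (A × ℂ) :=
  ((mulL b).comp (ContinuousLinearMap.fst ℂ A ℂ) +
    (ContinuousLinearMap.snd ℂ A ℂ).smulRight b).prod 0

@[simp] theorem opT_apply (b : A) (v : A × ℂ) : opT b v = (b * v.1 + v.2 • b, 0) := rfl

/-- The curve `t ↦ exp (i t b)` in `A × ℂ`. -/
noncomputable def crv (b : A) (t : ℝ) : A × ℂ :=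
  NormedSpace.exp (t • (Complex.I • opT b)) (0, 1)

theorem hasDerivAt_crv (b : A) (t : ℝ) :
    HasDerivAt (crv b) (Complex.I • opT b (crv b t)) t := by
  have h := hasDerivAt_exp_smul_const' (𝕂 := ℝ) (Complex.I • opT b) t
  have h2 := ((ContinuousLinearMap.apply ℂ (A × ℂ)
    ((0, 1) : A × ℂ)).restrictScalars ℝ).hasFDerivAt.comp_hasDerivAt t h
  exact h2

theorem crv_zero (b : A) : crv b 0 = (0, 1) := by
  have h : (0 : ℝ) • (Complex.I • opT b) = 0 := by
    ext v <;> simp
  unfold crv
  rw [h, NormedSpace.exp_zero]; rfl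

theorem exp_mem {E : Type*} [NormedAddCommGroup E] [NormedSpace ℂ E] [CompleteSpace E]
    (T : E →L[ℂ] E) (V : Submodule ℂ E) (hV : IsClosed (V : Set E))
    (hT : ∀ v ∈ V, T v ∈ V) (v : E) (hv : v ∈ V) : NormedSpace.exp T v ∈ V := by
  have h := (NormedSpace.exp_series_hasSum_exp' (𝕂 := ℂ) T).mapL (ContinuousLinearMap.apply ℂ E v)
  have hn : ∀ n : ℕ, (T ^ n) v ∈ V := by
    intro n
    induction n with
    | zero => simpa using hv
    | succ n ih => rw [pow_succ']; exact hT _ ih
  exact hV.mem_of_tendsto h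
    (Eventually.of_forall fun s => Submodule.sum_mem _ fun n _ => Submodule.smul_mem _ _ (hn n))

theorem crv_fst_mem (b : A) (t : ℝ) : (crv b t).1 ∈ Sb b := by
  have h := exp_mem (t • (Complex.I • opT b)) ((Sb b).prod ⊤)
    ((isClosed_Sb b).prod isClosed_univ) (fun v hv => ?_) (0, 1) ⟨Submodule.zero_mem _, trivial⟩
  · exact h.1
  · refine ⟨?_, trivial⟩
    change t • (Complex.I • (b * v.1 + v.2 • b)) ∈ Sb b
    have h1 : Complex.I • (b * v.1 + v.2 • b) ∈ Sb b :=
      Submodule.smul_mem _ _ (Submodule.add_mem _ (mul_mem_Sb hv.1)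
        (Submodule.smul_mem _ _ (pw_mem_Sb b 0)))
    have h2 := Submodule.smul_mem _ (t : ℂ) h1
    simpa using h2

theorem crv_snd (b : A) (t : ℝ) : (crv b t).2 = 1 := by
  have h : ∀ s, HasDerivAt (fun s => (crv b s).2) 0 s := fun s => by
    have h1 := (ContinuousLinearMap.snd ℝ A ℂ).hasFDerivAt.comp_hasDerivAt s (hasDerivAt_crv b s)
    refine (h1.congr_deriv ?_)
    change Complex.I • (0 : ℂ) = 0
    simp
  have h2 := is_const_of_deriv_eq_zero (f := fun s => (crv b s).2)
    (fun s => (h s).differentiableAt) (fun s => (h s).deriv) t 0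
  simpa [crv_zero] using h2

/-- The curve `z t = exp (i t b) - 1`. -/
noncomputable def zc (b : A) (t : ℝ) : A := (crv b t).1

theorem zc_zero (b : A) : zc b 0 = 0 := by simp [zc, crv_zero]

theorem zc_mem (b : A) (t : ℝ) : zc b t ∈ Sb b := crv_fst_mem b t

theorem hasDerivAt_zc (b : A) (t : ℝ) :
    HasDerivAt (zc b) (Complex.I • (b * zc b t + b)) t := by
  have h1 := (ContinuousLinearMap.fst ℝ A ℂ).hasFDerivAt.comp_hasDerivAt t (hasDerivAt_crv b t)
  refine (h1.congr_deriv ?_)
  change Complex.I • (b * (crv b t).1 + (crv b t).2 • b) = _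
  rw [crv_snd, one_smul]; rfl

theorem hasDerivAt_star_zc {b : A} (hb : star b = b) (t : ℝ) :
    HasDerivAt (fun s => star (zc b s)) (-(Complex.I • (b * star (zc b t) + b))) t := by
  have h := hasDerivAt_zc b t
  have hc : ∀ x y : A, star (x + y) = star x + star y := jstar_add
  let sR : A →L[ℝ] A :=
    { toFun := star
      map_add' := jstar_add
      map_smul' := fun r x => by
        have := jstar_smul (r : ℂ) x
        simpa using this
      cont := (starL (A := A)).continuous }
  have h2 := sR.hasFDerivAt.comp_hasDerivAt t h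
  have h3 : sR (Complex.I • (b * zc b t + b)) = -(Complex.I • (b * star (zc b t) + b)) := by
    change star (Complex.I • (b * zc b t + b)) = _
    rw [jstar_smul, jstar_add, jstar_mul, hb]
    simp only [Complex.conj_I, neg_smul]
  rw [h3] at h2
  exact h2

theorem hasDerivAt_jmul {f g : ℝ → A} {f' g' : A} {t : ℝ} (hf : HasDerivAt f f' t)
    (hg : HasDerivAt g g' t) : HasDerivAt (fun s => f s * g s) (f' * g t + f t * g') t := by
  have hm : IsBoundedBilinearMap ℝ (fun p : A × A => p.1 * p.2) :=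
    { add_left := fun x y z => jadd_mul x y z
      smul_left := fun r x y => by
        have := jsmul_mul (r : ℂ) x y
        simpa using this
      add_right := fun x y z => jmul_add x y z
      smul_right := fun r x y => by
        have := jmul_smul (r : ℂ) x y
        simpa using this
      bound := ⟨1, one_pos, fun x y => by simpa using jnorm_mul_le x y⟩ }
  have h := (hm.hasFDerivAt (f t, g t)).comp_hasDerivAt t (hf.prodMk hg)
  have h2 : (hm.deriv (f t, g t)) (f', g') = f' * g t + f t * g' := by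
    simp [IsBoundedBilinearMap.deriv_apply, add_comm]
  rw [h2] at h
  exact h

theorem zc_mul_star {b : A} (hb : star b = b) (t : ℝ) :
    zc b t * star (zc b t) + zc b t + star (zc b t) = 0 := by
  have hd : ∀ s, HasDerivAt (fun s => zc b s * star (zc b s) + zc b s + star (zc b s)) 0 s := by
    intro s
    have h1 := hasDerivAt_zc b s
    have h2 := hasDerivAt_star_zc hb s
    have h3 := ((hasDerivAt_jmul h1 h2).add h1).add h2
    refine (h3.congr_deriv ?_)
    have hbb : b ∈ Sb b := pw_mem_Sb b 0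
    have e1 : (b * zc b s) * star (zc b s) = zc b s * (b * star (zc b s)) := by
      rw [jmul_comm (b * zc b s), mul_mul_comm_of_mem (star_mem_Sb hb (zc_mem b s)) hbb,
        mul_mul_comm_of_mem (zc_mem b s) hbb, jmul_comm (zc b s) (star (zc b s))]
    rw [jsmul_mul, jadd_mul, jmul_neg, jmul_smul, jmul_add, e1, jmul_comm (zc b s) b]
    module
  have h2 := is_const_of_deriv_eq_zero
    (f := fun s => zc b s * star (zc b s) + zc b s + star (zc b s))
    (fun s => (hd s).differentiableAt) (fun s => (hd s).deriv) t 0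
  have h0 : star (0 : A) = 0 := (starL (A := A)).map_zero
  simpa [zc_zero, h0, jzero_mul] using h2

theorem norm_zc_le {b : A} (hb : star b = b) (t : ℝ) : ‖zc b t‖ ≤ 3 := by
  set z := zc b t with hz
  have hS : z ∈ Sb b := zc_mem b t
  have hS' : star z ∈ Sb b := star_mem_Sb hb hS
  have h1 : z * star z = -(z + star z) := by
    have := zc_mul_star hb t
    rw [← hz] at this
    rw [eq_neg_iff_add_eq_zero, ← add_assoc]; exact this
  have h2 : (z * z) * star z = z * (z * star z) := by
    rw [jmul_comm (z * z), mul_mul_comm_of_mem hS' hS, jmul_comm (star z) z]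
  have h3 := jnorm_U z
  have h4 : (2 : ℂ) • ((z * star z) * z) - (z * z) * star z = -(z * z) + z + star z := by
    rw [h2, jmul_comm (z * star z) z, h1]
    simp only [jmul_neg, jmul_add, h1]
    module
  rw [h4] at h3
  have h5 : ‖-(z * z) + z + star z‖ ≤ ‖z‖ * ‖z‖ + ‖z‖ + 3 * ‖z‖ := by
    calc ‖-(z * z) + z + star z‖ ≤ ‖-(z * z)‖ + ‖z‖ + ‖star z‖ := norm_add₃_le
      _ ≤ ‖z‖ * ‖z‖ + ‖z‖ + 3 * ‖z‖ := by
        rw [norm_neg]
        gcongr
        · exact jnorm_mul_le _ _
        · exact norm_star_le z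
  by_contra hcon
  rw [not_le] at hcon
  have h6 : ‖z‖ ^ 3 ≤ ‖z‖ * ‖z‖ + ‖z‖ + 3 * ‖z‖ := h3 ▸ h5
  nlinarith [mul_pos (lt_trans (by norm_num : (0 : ℝ) < 3) hcon)
    (lt_trans (by norm_num : (0 : ℝ) < 3) hcon)]

theorem functional_zero_sa (f : A →L[ℂ] ℂ) (hf : ∀ c : A, f (c * c) = 0) {b : A}
    (hb : star b = b) : f b = 0 := by
  have hf2 : ∀ c d : A, f (c * d) = 0 := by
    intro c d
    have h := hf (c + d)
    simp only [jadd_mul, jmul_add, map_add, hf, jmul_comm d c, zero_add, add_zero] at h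
    linear_combination (1 / 2 : ℂ) * h
  have hd : ∀ s : ℝ, HasDerivAt (fun s : ℝ => f (zc b s) - s * (Complex.I * f b)) 0 s := by
    intro s
    have h1 := (f.restrictScalars ℝ).hasFDerivAt.comp_hasDerivAt s (hasDerivAt_zc b s)
    have h2 : HasDerivAt (fun s : ℝ => (s : ℂ) * (Complex.I * f b)) (1 * (Complex.I * f b)) s :=
      (Complex.ofRealCLM.hasDerivAt (x := s)).mul_const _
    have h3 := h1.sub h2
    refine (h3.congr_deriv ?_)
    change f (Complex.I • (b * zc b s + b)) - 1 * (Complex.I * f b) = 0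
    rw [map_smul, map_add, hf2]
    simp
  have hval : ∀ t : ℝ, f (zc b t) = t * (Complex.I * f b) := by
    intro t
    have h2 := is_const_of_deriv_eq_zero
      (f := fun s : ℝ => f (zc b s) - s * (Complex.I * f b))
      (fun s => (hd s).differentiableAt) (fun s => (hd s).deriv) t 0
    simp only [zc_zero, map_zero, Complex.ofReal_zero, zero_mul, sub_zero] at h2
    exact sub_eq_zero.1 h2
  have hbound : ∀ t : ℝ, |t| * ‖f b‖ ≤ ‖f‖ * 3 := by
    intro t
    have h1 : ‖f (zc b t)‖ ≤ ‖f‖ * 3 :=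
      (f.le_opNorm _).trans (by gcongr; exact norm_zc_le hb t)
    rw [hval t] at h1
    simpa using h1
  by_contra hne
  have hpos : 0 < ‖f b‖ := norm_pos_iff.2 hne
  have h1 := hbound ((‖f‖ * 3 + 1) / ‖f b‖)
  rw [abs_of_nonneg (by positivity), div_mul_cancel₀ _ hpos.ne'] at h1
  linarith

theorem functional_zero (f : A →L[ℂ] ℂ) (hf : ∀ c : A, f (c * c) = 0) (b : A) : f b = 0 := by
  have h1 : star (b + star b) = b + star b := by rw [jstar_add, jstar_star, add_comm]
  have h2 : star (Complex.I • (b - star b)) = Complex.I • (b - star b) := by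
    have h3 : star (b - star b) = star b - b := by
      have := (starL (A := A)).map_sub b (star b)
      simpa [jstar_star] using this
    rw [jstar_smul, h3]
    simp only [Complex.conj_I]
    module
  have e1 := functional_zero_sa f hf h1
  have e2 := functional_zero_sa f hf h2
  rw [map_add] at e1
  rw [map_smul, map_sub, smul_eq_mul, mul_eq_zero] at e2
  rcases e2 with e2 | e2
  · exact absurd e2 Complex.I_ne_zero
  · linear_combination (1 / 2 : ℂ) * e1 + (1 / 2 : ℂ) * e2

/-- The squares of `A` span a dense subspace. -/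
theorem dense_span_squares :
    (Submodule.span ℂ (Set.range fun c : A => c * c)).topologicalClosure = ⊤ := by
  rw [eq_top_iff]
  intro b _
  by_contra hb
  set V := (Submodule.span ℂ (Set.range fun c : A => c * c)).topologicalClosure with hV
  obtain ⟨f, u, h1, h2⟩ := RCLike.geometric_hahn_banach_closed_point (𝕜 := ℂ)
    (s := (V : Set A)) (x := b) ((V.restrictScalars ℝ).convex)
    (Submodule.isClosed_topologicalClosure _) hb
  have hu : 0 < u := by simpa using h1 0 V.zero_mem
  have h0 : ∀ v ∈ V, f v = 0 := by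
    intro v hv
    by_contra hne
    have h3 := h1 (((u + 1 : ℝ) : ℂ) • ((f v)⁻¹ • v)) (V.smul_mem _ (V.smul_mem _ hv))
    have h5 : f (((u + 1 : ℝ) : ℂ) • ((f v)⁻¹ • v)) = ((u + 1 : ℝ) : ℂ) := by
      rw [map_smul, map_smul, smul_eq_mul, smul_eq_mul, inv_mul_cancel₀ hne, mul_one]
    rw [h5] at h3
    have h6 : RCLike.re ((u + 1 : ℝ) : ℂ) = u + 1 := Complex.ofReal_re _
    linarith
  have h4 := functional_zero f (fun c => h0 _
    (Submodule.le_topologicalClosure _ (Submodule.subset_span ⟨c, rfl⟩))) b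
  rw [h4] at h2
  simp at h2
  linarith

/-- A property of elements of `A` which holds for squares and defines a closed subspace holds
everywhere. -/
theorem all_of_squares (V : Submodule ℂ A) (hV : IsClosed (V : Set A))
    (h : ∀ c : A, c * c ∈ V) (b : A) : b ∈ V := by
  have h1 : (Submodule.span ℂ (Set.range fun c : A => c * c)).topologicalClosure ≤ V :=
    Submodule.topologicalClosure_minimal _
      (Submodule.span_le.2 (by rintro _ ⟨c, rfl⟩; exact h c)) hV
  rw [dense_span_squares] at h1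
  exact h1 trivial

/-! ### The argument in an abstract container -/

section Abstract

variable {B : Type*} [NormedAddCommGroup B] [NormedSpace ℂ B] {e : A →ₗᵢ[ℂ] B} {P : B → B → B}

/-- The properties of the embedding `e : A → B` and of the product `P` on `B` used below. -/
structure GoodProduct (e : A →ₗᵢ[ℂ] B) (P : B → B → B) : Prop where
  add_left : ∀ X X' Y, P (X + X') Y = P X Y + P X' Y
  add_right : ∀ X Y Y', P X (Y + Y') = P X Y + P X Y'
  smul_left : ∀ (z : ℂ) X Y, P (z • X) Y = z • P X Y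
  smul_right : ∀ (z : ℂ) X Y, P X (z • Y) = z • P X Y
  norm_le : ∀ X Y, ‖P X Y‖ ≤ ‖X‖ * ‖Y‖
  comm : ∀ X b, P X (e b) = P (e b) X
  mul : ∀ a b, P (e a) (e b) = e (a * b)
  jlin : ∀ a X Y, P (e (a * a)) (P X Y) = P (P (e (a * a)) X) Y
    + (2 : ℂ) • P (e a) (P X (P (e a) Y)) - (2 : ℂ) • P (P (e a) X) (P (e a) Y)

theorem GoodProduct.sub_left (h : GoodProduct e P) (X X' Y : B) :
    P (X - X') Y = P X Y - P X' Y := by
  have h1 := h.add_left (X - X') X' Y
  rw [sub_add_cancel] at h1
  rw [h1, add_sub_cancel_right]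

theorem GoodProduct.sub_right (h : GoodProduct e P) (X Y Y' : B) :
    P X (Y - Y') = P X Y - P X Y' := by
  have h1 := h.add_right X (Y - Y') Y'
  rw [sub_add_cancel] at h1
  rw [h1, add_sub_cancel_right]

theorem GoodProduct.continuous_left (h : GoodProduct e P) (Y : B) :
    Continuous fun Z : B => P Z Y := by
  let T : B →L[ℂ] B := LinearMap.mkContinuous
    { toFun := fun Z => P Z Y
      map_add' := fun Z Z' => h.add_left Z Z' Y
      map_smul' := fun z Z => h.smul_left z Z Y } ‖Y‖
    (fun Z => (h.norm_le Z Y).trans (le_of_eq (mul_comm _ _)))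
  exact T.continuous

/-- Abstract multipliers. -/
def absMult (e : A →ₗᵢ[ℂ] B) (P : B → B → B) : Set B := {X | ∀ a : A, P X (e a) ∈ Set.range e}

theorem GoodProduct.exists_of_mult (h : GoodProduct e P) {X : B} (hX : X ∈ absMult e P) (a : A) :
    ∃ c : A, P (e a) X = e c := by
  obtain ⟨c, hc⟩ := hX a
  exact ⟨c, by rw [← h.comm, hc]⟩

theorem GoodProduct.mult_closed (h : GoodProduct e P) {X Y : B} (hX : X ∈ absMult e P)
    (hY : Y ∈ absMult e P) : P X Y ∈ absMult e P := by
  intro b
  rw [h.comm]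
  let R : Submodule ℂ B := LinearMap.range e.toLinearMap
  have hR : IsClosed (R : Set B) := e.isometry.isClosedEmbedding.isClosed_range
  let V : Submodule ℂ A :=
    { carrier := {b | P (e b) (P X Y) ∈ R}
      add_mem' := fun {b b'} hb hb' => by
        change P (e (b + b')) (P X Y) ∈ R
        rw [map_add, h.add_left]
        exact Submodule.add_mem _ hb hb'
      zero_mem' := by
        change P (e 0) (P X Y) ∈ R
        have h1 := h.smul_left 0 0 (P X Y)
        rw [map_zero]
        rw [zero_smul, zero_smul] at h1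
        rw [h1]
        exact Submodule.zero_mem _
      smul_mem' := fun z b hb => by
        change P (e (z • b)) (P X Y) ∈ R
        rw [map_smul, h.smul_left]
        exact Submodule.smul_mem _ _ hb }
  have hV : IsClosed (V : Set A) := hR.preimage ((h.continuous_left (P X Y)).comp e.continuous)
  refine all_of_squares V hV (fun a => ?_) b
  change P (e (a * a)) (P X Y) ∈ R
  rw [h.jlin]
  obtain ⟨c1, h1⟩ := h.exists_of_mult hX (a * a)
  obtain ⟨c2, h2⟩ := h.exists_of_mult hX a
  obtain ⟨c3, h3⟩ := h.exists_of_mult hY a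
  obtain ⟨c4, h4⟩ := h.exists_of_mult hX c3
  obtain ⟨c5, h5⟩ := h.exists_of_mult hY c1
  rw [h1, h2, h3, h.comm X c3, h4, h5, h.mul, h.mul]
  have hr : ∀ c, e c ∈ R := fun c => ⟨c, rfl⟩
  exact Submodule.sub_mem _ (Submodule.add_mem _ (hr _) (Submodule.smul_mem _ _ (hr _)))
    (Submodule.smul_mem _ _ (hr _))

/-- Joint convergence tested against a square. -/
theorem GoodProduct.joint_square (h : GoodProduct e P) {I K : Type*} {l : Filter I}
    {l' : Filter K} {x : I → B}
    {y : K → B} {x₀ y₀ : B} (hx₀ : x₀ ∈ absMult e P) (hy₀ : y₀ ∈ absMult e P)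
    {C D : ℝ} (hC : ∀ i, ‖x i‖ ≤ C) (hD : ∀ k, ‖y k‖ ≤ D)
    (hx : ∀ a, Tendsto (fun i => ‖P (e a) (x i - x₀)‖) l (𝓝 0))
    (hy : ∀ a, Tendsto (fun k => ‖P (e a) (y k - y₀)‖) l' (𝓝 0)) (a : A) :
    Tendsto (fun p : I × K => ‖P (e (a * a)) (P (x p.1) (y p.2) - P x₀ y₀)‖)
      (l ×ˢ l') (𝓝 0) := by
  obtain ⟨c1, h1⟩ := h.exists_of_mult hx₀ (a * a)
  obtain ⟨c2, h2⟩ := h.exists_of_mult hx₀ a
  obtain ⟨c3, h3⟩ := h.exists_of_mult hy₀ a
  have hid : ∀ p : I × K, P (e (a * a)) (P (x p.1) (y p.2) - P x₀ y₀) =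
      (P (P (e (a * a)) (x p.1 - x₀)) (y p.2) + P (e c1) (y p.2 - y₀))
      + (2 : ℂ) • (P (e a) (P (x p.1) (P (e a) (y p.2 - y₀)))
          + P (e a) (P (e c3) (x p.1 - x₀)))
      - (2 : ℂ) • (P (P (e a) (x p.1 - x₀)) (P (e a) (y p.2))
          + P (e c2) (P (e a) (y p.2 - y₀))) := by
    intro p
    rw [h.sub_right, h.jlin, h.jlin a x₀ y₀, ← h1, ← h2, ← h.comm _ c3, ← h3]
    simp only [h.sub_right, h.sub_left]
    module
  have t1 := (hx (a * a)).comp (tendsto_fst (f := l) (g := l'))
  have t2 := (hy c1).comp (tendsto_snd (f := l) (g := l'))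
  have t3 := (hy a).comp (tendsto_snd (f := l) (g := l'))
  have t4 := (hx c3).comp (tendsto_fst (f := l) (g := l'))
  have t5 := (hx a).comp (tendsto_fst (f := l) (g := l'))
  have hlim : Tendsto (fun p : I × K =>
      (‖P (e (a * a)) (x p.1 - x₀)‖ * D + ‖P (e c1) (y p.2 - y₀)‖)
      + 2 * (‖a‖ * (C * ‖P (e a) (y p.2 - y₀)‖) + ‖a‖ * ‖P (e c3) (x p.1 - x₀)‖)
      + 2 * (‖P (e a) (x p.1 - x₀)‖ * (‖a‖ * D)
          + ‖c2‖ * ‖P (e a) (y p.2 - y₀)‖)) (l ×ˢ l') (𝓝 0) := by
    have := (((t1.mul_const D).add t2).add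
      ((((t3.const_mul C).const_mul ‖a‖).add (t4.const_mul ‖a‖)).const_mul 2)).add
      (((t5.mul_const (‖a‖ * D)).add (t3.const_mul ‖c2‖)).const_mul 2)
    simpa using this
  refine squeeze_zero (fun _ => norm_nonneg _) (fun p => ?_) hlim
  rw [hid p]
  have hC0 : 0 ≤ C := (norm_nonneg _).trans (hC p.1)
  have hD0 : 0 ≤ D := (norm_nonneg _).trans (hD p.2)
  have b1 : ‖P (P (e (a * a)) (x p.1 - x₀)) (y p.2)‖ ≤
      ‖P (e (a * a)) (x p.1 - x₀)‖ * D :=
    (h.norm_le _ _).trans (by gcongr; exact hD _)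
  have b2 : ‖P (e a) (P (x p.1) (P (e a) (y p.2 - y₀)))‖ ≤
      ‖a‖ * (C * ‖P (e a) (y p.2 - y₀)‖) := by
    refine (h.norm_le _ _).trans ?_
    rw [e.norm_map]
    gcongr
    exact (h.norm_le _ _).trans (by gcongr; exact hC _)
  have b3 : ‖P (e a) (P (e c3) (x p.1 - x₀))‖ ≤
      ‖a‖ * ‖P (e c3) (x p.1 - x₀)‖ := by
    refine (h.norm_le _ _).trans ?_
    rw [e.norm_map]
  have b4 : ‖P (P (e a) (x p.1 - x₀)) (P (e a) (y p.2))‖ ≤
      ‖P (e a) (x p.1 - x₀)‖ * (‖a‖ * D) := by
    refine (h.norm_le _ _).trans ?_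
    gcongr
    refine (h.norm_le _ _).trans ?_
    rw [e.norm_map]
    gcongr
    exact hD _
  have b5 : ‖P (e c2) (P (e a) (y p.2 - y₀))‖ ≤
      ‖c2‖ * ‖P (e a) (y p.2 - y₀)‖ := by
    refine (h.norm_le _ _).trans ?_
    rw [e.norm_map]
  have n2 : ‖(2 : ℂ)‖ = 2 := by simp
  refine (norm_sub_le _ _).trans ?_
  refine add_le_add ((norm_add_le _ _).trans (add_le_add ?_ ?_)) ?_
  · exact (norm_add_le _ _).trans (add_le_add b1 le_rfl)
  · rw [norm_smul, n2]
    gcongr
    exact (norm_add_le _ _).trans (add_le_add b2 b3)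
  · rw [norm_smul, n2]
    gcongr
    exact (norm_add_le _ _).trans (add_le_add b4 b5)

/-- A bounded family converging to zero against all squares converges to zero against all
elements. -/
theorem GoodProduct.of_squares (h : GoodProduct e P) {I : Type*} {l : Filter I} {w : I → B}
    {C : ℝ} (hC : ∀ i, ‖w i‖ ≤ C)
    (hw : ∀ a : A, Tendsto (fun i => ‖P (e (a * a)) (w i)‖) l (𝓝 0)) (b : A) :
    Tendsto (fun i => ‖P (e b) (w i)‖) l (𝓝 0) := by
  let V : Submodule ℂ A :=
    { carrier := {b | Tendsto (fun i => P (e b) (w i)) l (𝓝 0)}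
      add_mem' := fun {b b'} hb hb' => by
        have := Tendsto.add hb hb'
        simp only [add_zero] at this
        refine this.congr fun i => ?_
        rw [map_add, h.add_left]
      zero_mem' := by
        change Tendsto (fun i => P (e 0) (w i)) l (𝓝 0)
        have : (fun i => P (e (0 : A)) (w i)) = fun _ => 0 := by
          ext i : 1
          have h1 := h.smul_left 0 0 (w i)
          rw [map_zero]
          rw [zero_smul, zero_smul] at h1
          exact h1
        rw [this]
        exact tendsto_const_nhds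
      smul_mem' := fun z b hb => by
        have := Tendsto.const_smul hb z
        simp only [smul_zero] at this
        refine this.congr fun i => ?_
        rw [map_smul, h.smul_left] }
  have hV : IsClosed (V : Set A) := by
    refine isClosed_of_closure_subset fun b hb => ?_
    change Tendsto (fun i => P (e b) (w i)) l (𝓝 0)
    rw [Metric.tendsto_nhds]
    intro ε hε
    have hC1 : 0 < |C| + 1 := by positivity
    obtain ⟨b', hb', hbb⟩ := Metric.mem_closure_iff.1 hb (ε / 2 / (|C| + 1)) (by positivity)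
    have h1 : Tendsto (fun i => P (e b') (w i)) l (𝓝 0) := hb'
    filter_upwards [(Metric.tendsto_nhds.1 h1) (ε / 2) (by positivity)] with i hi
    rw [dist_zero_right] at hi ⊢
    have h2 : P (e b) (w i) = P (e (b - b')) (w i) + P (e b') (w i) := by
      rw [map_sub, h.sub_left]; abel
    rw [h2]
    have h3 : ‖P (e (b - b')) (w i)‖ ≤ ‖b - b'‖ * (|C| + 1) := by
      refine (h.norm_le _ _).trans ?_
      rw [e.norm_map]
      gcongr
      exact (hC i).trans ((le_abs_self C).trans (by linarith))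
    have h4 : ‖b - b'‖ * (|C| + 1) < ε / 2 := by
      rw [← dist_eq_norm]
      calc dist b b' * (|C| + 1) < ε / 2 / (|C| + 1) * (|C| + 1) := by gcongr
        _ = ε / 2 := by field_simp
    calc ‖P (e (b - b')) (w i) + P (e b') (w i)‖
        ≤ ‖P (e (b - b')) (w i)‖ + ‖P (e b') (w i)‖ := norm_add_le _ _
      _ < ε / 2 + ε / 2 := by linarith
      _ = ε := by ring
  have := all_of_squares V hV (fun a => tendsto_zero_iff_norm_tendsto_zero.2 (hw a)) b
  exact tendsto_zero_iff_norm_tendsto_zero.1 this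

theorem GoodProduct.joint (h : GoodProduct e P) {I K : Type*} {l : Filter I}
    {l' : Filter K} {x : I → B}
    {y : K → B} {x₀ y₀ : B} (hx₀ : x₀ ∈ absMult e P) (hy₀ : y₀ ∈ absMult e P)
    {C D : ℝ} (hC : ∀ i, ‖x i‖ ≤ C) (hD : ∀ k, ‖y k‖ ≤ D)
    (hx : ∀ a, Tendsto (fun i => ‖P (e a) (x i - x₀)‖) l (𝓝 0))
    (hy : ∀ a, Tendsto (fun k => ‖P (e a) (y k - y₀)‖) l' (𝓝 0)) (b : A) :
    Tendsto (fun p : I × K => ‖P (e b) (P (x p.1) (y p.2) - P x₀ y₀)‖) (l ×ˢ l') (𝓝 0) := by
  refine h.of_squares (C := C * D + ‖P x₀ y₀‖) (fun p => ?_)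
    (fun a => h.joint_square hx₀ hy₀ hC hD hx hy a) b
  refine (norm_sub_le _ _).trans (add_le_add ?_ le_rfl)
  have hC0 : 0 ≤ C := (norm_nonneg _).trans (hC p.1)
  exact (h.norm_le _ _).trans (mul_le_mul (hC _) (hD _) (norm_nonneg _) hC0)

end Abstract

/-- The linearised Jordan identity in the bidual, with `a` in `A`. -/
theorem arens_jlin (a : A) (X Y : Bidual A) :
    arens (emb (a * a)) (arens X Y) =
      arens (arens (emb (a * a)) X) Y + (2 : ℂ) • arens (emb a) (arens X (arens (emb a) Y))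
        - (2 : ℂ) • arens (arens (emb a) X) (arens (emb a) Y) := by
  ext φ
  have key : bact Y (act φ (a * a)) = act (bact Y φ) (a * a)
      + (2 : ℂ) • bact (arens (emb a) Y) (act φ a)
      - (2 : ℂ) • act (bact (arens (emb a) Y) φ) a := by
    ext x
    have key2 : act (act φ (a * a)) x = act φ ((a * a) * x)
        + (2 : ℂ) • act (act (act φ a) x) a - (2 : ℂ) • act (act φ (a * x)) a := by
      ext y
      change φ ((a * a) * (x * y)) = φ (((a * a) * x) * y) + (2 : ℂ) • φ (a * (x * (a * y)))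
        - (2 : ℂ) • φ ((a * x) * (a * y))
      rw [← map_smul, ← map_smul, ← map_add, ← map_sub]
      congr 1
      rw [eq_sub_iff_add_eq]
      exact jlin' a x y
    change Y (act (act φ (a * a)) x) = Y (act φ ((a * a) * x))
      + (2 : ℂ) • Y (act (act (act φ a) x) a) - (2 : ℂ) • Y (act (act φ (a * x)) a)
    rw [key2, map_sub, map_add, map_smul, map_smul]
  change X (bact Y (act φ (a * a))) = X (act (bact Y φ) (a * a))
    + (2 : ℂ) • X (bact (arens (emb a) Y) (act φ a))
    - (2 : ℂ) • X (act (bact (arens (emb a) Y) φ) a)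
  rw [key, map_sub, map_add, map_smul, map_smul]

theorem goodProduct_arens :
    GoodProduct (NormedSpace.inclusionInDoubleDualLi ℂ (E := A)) (arens (A := A)) where
  add_left := arens_add_left
  add_right := arens_add_right
  smul_left := arens_smul_left
  smul_right := arens_smul_right
  norm_le := norm_arens_le
  comm := arens_emb_comm
  mul := arens_emb_emb
  jlin := arens_jlin

theorem bundled.{u, v, w} (A : Type u) [JBStarAlgebra A] :
    (∀ x ∈ multipliers A, ∀ y ∈ multipliers A, arens x y ∈ multipliers A) ∧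
    ∀ {I : Type v} {K : Type w} (l : Filter I) (l' : Filter K) (x : I → Bidual A)
      (y : K → Bidual A) (x₀ y₀ : Bidual A),
      (∀ i, x i ∈ multipliers A) → (∀ k, y k ∈ multipliers A) →
      x₀ ∈ multipliers A → y₀ ∈ multipliers A →
      (∃ C : ℝ, ∀ i, ‖x i‖ ≤ C) → (∃ D : ℝ, ∀ k, ‖y k‖ ≤ D) →
      JStrictTendsto x l x₀ → JStrictTendsto y l' y₀ →
      JStrictTendsto (fun p : I × K => arens (x p.1) (y p.2)) (l ×ˢ l') (arens x₀ y₀) := by
  refine ⟨fun x hx y hy => (goodProduct_arens (A := A)).mult_closed hx hy, ?_⟩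
  intro I K l l' x y x₀ y₀ _ _ hx₀ hy₀ ⟨C, hC⟩ ⟨D, hD⟩ hx hy b
  exact (goodProduct_arens (A := A)).joint hx₀ hy₀ hC hD hx hy b

end Pool.Agent.Lib.MP_2cba5e_an
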